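import Pool.Agent.Work.MP_659252_gt.SP.GDefs

/-!
# Elementary facts on Lorentz forms.  Size: M.

PROOFS.
`lor_two`: if `x`, `y` satisfy `M(x) ≤ 0`, `M(y) ≤ 0`, `M(x, y) = 0` then `M(a x + b y) = a² M(x) + b² M(y) ≤ 0` for all `a`, `b`; choose `(a, b) = (y 0, -x 0)` (if `x 0 = y 0 = 0` take `(1, 0)` or
`(0, 1)`): the vector `z = a x + b y` has `z 0 = 0`, so `z = 0` (`pos`).  This is a linear relation between `x` and `y`, with `(a, b) ≠ (0, 0)`.
`lor_orth`: otherwise `M(y) ≤ 0` and `lor_two` gives `a x + b y = 0`; `b ≠ 0` (else `a x = 0`, `x = 0`, `M(x) = 0`), so `y = c x`, `M(x, y) = c M(x) = 0` gives `c = 0`, `y = 0`.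
`lor_null`: if `M(y) < 0` then `lor_orth` (with `y`, `x`) gives `M(x) > 0`: contradiction.  If `M(y) = 0`, `lor_two` gives `a x + b y = 0`; `b ≠ 0` (as `x ≠ 0`), `y = c x`.
`lor_ker`: if `mul M x = 0`, `x ≠ 0`: take `y` with `M(y) < 0`; `M(y, x) = 0` (`bil_eq_dot`), so `M(x) > 0` by `lor_orth`, but `M(x) = x ⬝ mul M x = 0`.
`lor_neg_mul`: `z = x - (x 0/y 0) y` has `z 0 = 0`; if `z = 0` then `x = c y`, `c > 0`, `M(x, y) = c M(y) < 0`.  Otherwise `0 < M(z) = M(x) - 2 c M(x, y) + c² M(y)` with `c = x 0/y 0 > 0`, and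
`M(x) + c² M(y) < 0`, so `M(x, y) < 0`.
`lor_zero`: `M(x) ≤ 0`, `x ≠ 0` implies `x 0 ≠ 0` (`pos`).
-/

namespace Pool.Agent.Work.MP_659252_gt.SP

open scoped ContDiff Topology
open Pool.Agent.Work.MP_659252_gt.Z (V Ten val Tan InT)
open Pool.Agent.Work.MP_659252_gt.QR

variable {d : ℕ}

private theorem lorA_quad (M : Mat d) (h : Lor M) (x y : V d) (a b : ℝ) :
    bil M (a • x + b • y) (a • x + b • y) =
      a ^ 2 * bil M x x + 2 * a * b * bil M x y + b ^ 2 * bil M y y := by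
  rw [bil_add_left, bil_add_right, bil_add_right, bil_smul_left, bil_smul_left, bil_smul_right,
    bil_smul_right, bil_smul_left, bil_smul_left, bil_smul_right, bil_smul_right,
    bil_comm h.symm y x]
  ring

private theorem lorA_rel (M : Mat d) (h : Lor M) (x y : V d) (hx : bil M x x ≤ 0)
    (hy : bil M y y ≤ 0) (hxy : bil M x y = 0) (a b : ℝ) (hab : a * x 0 + b * y 0 = 0) :
    a • x + b • y = 0 := by
  by_contra hn
  have h1 := h.pos _ hn (by
    rw [Pi.add_apply, Pi.smul_apply, Pi.smul_apply, smul_eq_mul, smul_eq_mul]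
    exact hab)
  rw [lorA_quad M h, hxy] at h1
  nlinarith [mul_nonneg (sq_nonneg a) (neg_nonneg.2 hx), mul_nonneg (sq_nonneg b) (neg_nonneg.2 hy)]

private theorem lorA_solve {x y : V d} {a b : ℝ} (hb : b ≠ 0) (h : a • x + b • y = 0) :
    y = (-a / b) • x := by
  have h1 : b • y = -(a • x) := (neg_eq_of_add_eq_zero_right h).symm
  have h2 : y = b⁻¹ • (b • y) := by
    rw [smul_smul, inv_mul_cancel₀ hb, one_smul]
  rw [h2, h1, smul_neg, smul_smul, ← neg_smul]
  congr 1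
  field_simp

theorem lor_two (M : Mat d) (h : Lor M) (x y : V d) (hx : bil M x x ≤ 0) (hy : bil M y y ≤ 0)
    (hxy : bil M x y = 0) : ∃ a b : ℝ, (a ≠ 0 ∨ b ≠ 0) ∧ a • x + b • y = 0 := by
  by_cases h0 : x 0 = 0 ∧ y 0 = 0
  · exact ⟨1, 0, Or.inl one_ne_zero, lorA_rel M h x y hx hy hxy 1 0 (by rw [h0.1]; ring)⟩
  · refine ⟨y 0, -x 0, ?_, lorA_rel M h x y hx hy hxy _ _ (by ring)⟩
    by_contra hn
    push Not at hn
    exact h0 ⟨neg_eq_zero.1 hn.2, hn.1⟩

theorem lor_orth (M : Mat d) (h : Lor M) (x y : V d) (hx : bil M x x < 0) (hxy : bil M x y = 0) (hy : y ≠ 0) :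
    0 < bil M y y := by
  by_contra hn
  obtain ⟨a, b, hab, h1⟩ := lor_two M h x y hx.le (not_lt.1 hn) hxy
  have hx0 : x ≠ 0 := by
    rintro rfl
    have : bil M (0 : V d) 0 = 0 := by simp [bil]
    linarith
  have hb : b ≠ 0 := by
    rintro rfl
    rw [zero_smul, add_zero] at h1
    rcases smul_eq_zero.1 h1 with h2 | h2
    · rcases hab with h3 | h3
      · exact h3 h2
      · exact h3 rfl
    · exact hx0 h2
  have h2 := lorA_solve hb h1
  rw [h2, bil_smul_right] at hxy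
  rcases mul_eq_zero.1 hxy with h3 | h3
  · apply hy
    rw [h2, h3, zero_smul]
  · exact hx.ne h3

theorem lor_null (M : Mat d) (h : Lor M) (x y : V d) (hx0 : x ≠ 0) (hx : bil M x x = 0) (hxy : bil M x y = 0) :
    0 ≤ bil M y y ∧ (bil M y y = 0 → ∃ c : ℝ, y = c • x) := by
  constructor
  · by_contra hn
    have h1 := lor_orth M h y x (not_le.1 hn) ((bil_comm h.symm y x).trans hxy) hx0
    exact h1.ne' hx
  · intro hy
    obtain ⟨a, b, hab, h1⟩ := lor_two M h x y hx.le hy.le hxy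
    have hb : b ≠ 0 := by
      rintro rfl
      rw [zero_smul, add_zero] at h1
      rcases smul_eq_zero.1 h1 with h2 | h2
      · rcases hab with h3 | h3
        · exact h3 h2
        · exact h3 rfl
      · exact hx0 h2
    exact ⟨_, lorA_solve hb h1⟩

theorem lor_ker (M : Mat d) (h : Lor M) (x : V d) (hx : mul M x = 0) : x = 0 := by
  by_contra hn
  obtain ⟨y, hy⟩ := h.neg
  have h1 := lor_orth M h y x hy (by rw [bil_eq_dot, hx, dotProduct_zero]) hn
  rw [bil_eq_dot, hx, dotProduct_zero] at h1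
  exact lt_irrefl _ h1

theorem lor_neg_mul (M : Mat d) (h : Lor M) (x y : V d) (hx0 : 0 < x 0) (hy0 : 0 < y 0) (hx : bil M x x < 0)
    (hy : bil M y y < 0) : bil M x y < 0 := by
  set c : ℝ := x 0 / y 0 with hc
  have hc0 : 0 < c := div_pos hx0 hy0
  by_cases hz : (1 : ℝ) • x + (-c) • y = 0
  · have h1 : x = c • y := by
      rw [one_smul, neg_smul] at hz
      exact eq_of_sub_eq_zero (by rw [sub_eq_add_neg]; exact hz)
    rw [h1, bil_smul_left]
    exact mul_neg_of_pos_of_neg hc0 hy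
  · have h1 := h.pos _ hz (by
      rw [Pi.add_apply, Pi.smul_apply, Pi.smul_apply, smul_eq_mul, smul_eq_mul, hc]
      field_simp
      ring)
    rw [lorA_quad M h] at h1
    have h2 : 0 < c ^ 2 * (-bil M y y) := mul_pos (pow_pos hc0 2) (neg_pos.2 hy)
    by_contra h3
    have h4 : 0 ≤ c * bil M x y := mul_nonneg hc0.le (not_lt.1 h3)
    nlinarith

theorem lor_zero (M : Mat d) (h : Lor M) (x : V d) (hx0 : x ≠ 0) (hx : bil M x x ≤ 0) : x 0 ≠ 0 := by
  intro h0
  exact absurd (h.pos x hx0 h0) (not_lt.2 hx)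

end Pool.Agent.Work.MP_659252_gt.SP
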