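import Pool.Agent.Work.MP_659252_gt.SP.G.LorB

/-!
# From the dual cones to the cones.  Size: S-M.

PROOF.  (1) Let `bil M₁ x x < 0` and suppose `0 < bil M₂ x x`.  `lor_nullvec` (for `M₂`): `P ≠ 0`, `bil M₂ P P = 0`, `bil M₂ P x = 0`.  `Y = mul N₁ (mul M₂ P)`; `mul M₁ Y = mul M₂ P`, `Y ≠ 0` (`lor_ker` for `M₂`).
`bil M₁ Y Y = Y ⬝ mul M₂ P = bil N₁ (mul M₂ P) (mul M₂ P) ≤ 0` (hypothesis), and `bil M₁ x Y = x ⬝ mul M₂ P = bil M₂ x P = 0`: contradiction to `lor_orth` for `M₁` (`x`, `Y`).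
(2) Let `bil M₁ x x ≤ 0`; take `u` with `bil M₁ u u < 0`, after `u ↦ -u` `bil M₁ x u ≤ 0`.  For `ε > 0`: `bil M₁ (x + ε u) (x + ε u) = M₁(x) + 2 ε M₁(x,u) + ε² M₁(u) < 0`, so `bil M₂ (x + ε u) (x + ε u) ≤ 0` by (1); let `ε → 0+`.
-/

namespace Pool.Agent.Work.MP_659252_gt.SP

open scoped ContDiff Topology
open Pool.Agent.Work.MP_659252_gt.Z (V Ten val Tan InT)
open Pool.Agent.Work.MP_659252_gt.QR

variable {d : ℕ}

private theorem incl_mul_zero (M : Mat d) : mul M 0 = 0 := by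
  funext i
  simp [mul]

private theorem incl_one (hd : 2 ≤ d) (M₁ M₂ N₁ : Mat d) (h₁ : Lor M₁) (h₂ : Lor M₂)
    (hinv : ∀ y, mul M₁ (mul N₁ y) = y)
    (h : ∀ P : V d, bil M₂ P P = 0 → bil N₁ (mul M₂ P) (mul M₂ P) ≤ 0) (x : V d)
    (hx : bil M₁ x x < 0) : bil M₂ x x ≤ 0 := by
  by_contra hc
  push Not at hc
  obtain ⟨P, hP0, hPP, hPx⟩ := lor_nullvec hd M₂ h₂ x hc
  set Y : V d := mul N₁ (mul M₂ P) with hY
  have hMY : mul M₁ Y = mul M₂ P := hinv _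
  have hY0 : Y ≠ 0 := by
    intro h0
    rw [h0, incl_mul_zero] at hMY
    exact hP0 (lor_ker M₂ h₂ P hMY.symm)
  have h3 : bil M₁ Y Y ≤ 0 := by
    have h4 : bil M₁ Y Y = bil N₁ (mul M₂ P) (mul M₂ P) := by
      rw [bil_eq_dot, hMY, bil_eq_dot, ← hY, dotProduct_comm]
    rw [h4]
    exact h P hPP
  have h5 : bil M₁ x Y = 0 := by
    rw [bil_eq_dot, hMY, ← bil_eq_dot, bil_comm h₂.symm]
    exact hPx
  have h6 := lor_orth M₁ h₁ x Y hx h5 hY0
  linarith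

theorem incl (hd : 2 ≤ d) (M₁ M₂ N₁ : Mat d) (h₁ : Lor M₁) (h₂ : Lor M₂) (hN : ∀ i j, N₁ i j = N₁ j i)
    (hinv : ∀ y, mul M₁ (mul N₁ y) = y)
    (h : ∀ P : V d, bil M₂ P P = 0 → bil N₁ (mul M₂ P) (mul M₂ P) ≤ 0) (x : V d) (hx : bil M₁ x x ≤ 0) :
    bil M₂ x x ≤ 0 := by
  have hN' := hN
  by_contra hc
  push Not at hc
  obtain ⟨u₀, hu₀⟩ := h₁.neg
  obtain ⟨u, hu, hxu⟩ : ∃ u : V d, bil M₁ u u < 0 ∧ bil M₁ x u ≤ 0 := by
    rcases le_total (bil M₁ x u₀) 0 with h3 | h3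
    · exact ⟨u₀, hu₀, h3⟩
    · refine ⟨-u₀, ?_, ?_⟩
      · rw [bil_neg_left, bil_neg_right]
        linarith
      · rw [bil_neg_right]
        linarith
  have hexp : ∀ (M : Mat d), (∀ i j, M i j = M j i) → ∀ e : ℝ, bil M (x + e • u) (x + e • u) =
      bil M x x + 2 * e * bil M x u + e ^ 2 * bil M u u := by
    intro M hM e
    rw [bil_add_left, bil_add_right, bil_add_right, bil_smul_left, bil_smul_left, bil_smul_right,
      bil_smul_right, bil_comm hM u x]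
    ring
  have key : ∀ e : ℝ, 0 < e → bil M₂ x x + 2 * e * bil M₂ x u + e ^ 2 * bil M₂ u u ≤ 0 := by
    intro e he
    rw [← hexp M₂ h₂.symm]
    refine incl_one hd M₁ M₂ N₁ h₁ h₂ hinv h _ ?_
    rw [hexp M₁ h₁.symm]
    have h3 : 2 * e * bil M₁ x u ≤ 0 := by nlinarith
    have h4 : e ^ 2 * bil M₁ u u < 0 := by
      have : 0 < e ^ 2 := by positivity
      nlinarith
    linarith
  set m := bil M₂ x x with hm
  set B := |bil M₂ x u| with hB
  set C := |bil M₂ u u| with hC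
  have hB0 : 0 ≤ B := abs_nonneg _
  have hC0 : 0 ≤ C := abs_nonneg _
  have hB1 : -B ≤ bil M₂ x u := neg_abs_le _
  have hC1 : -C ≤ bil M₂ u u := neg_abs_le _
  set D := m + 2 * B + C + 1 with hD
  have hD0 : 0 < D := by positivity
  have he0 : 0 < m / D := by positivity
  have he1 : m / D ≤ 1 := by
    rw [div_le_one hD0]
    linarith
  have h3 := key (m / D) he0
  set e := m / D with he
  have heD : e * D = m := by
    rw [he]
    field_simp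
  have h4 : e * (-B) ≤ e * bil M₂ x u := mul_le_mul_of_nonneg_left hB1 he0.le
  have h5 : e ^ 2 * (-C) ≤ e ^ 2 * bil M₂ u u := mul_le_mul_of_nonneg_left hC1 (by positivity)
  have h6 : e ^ 2 * C ≤ e * C := by
    have h7 : e ^ 2 ≤ e := by nlinarith
    exact mul_le_mul_of_nonneg_right h7 hC0
  have h8 : e * D = e * m + 2 * (e * B) + e * C + e := by rw [hD]; ring
  have h9 : 0 < e * m := by positivity
  nlinarith

end Pool.Agent.Work.MP_659252_gt.SP
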