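import Pool.Agent.Work.MP_659252_gt.SP.G.Sgn
import Pool.Agent.Work.MP_659252_gt.SP.G.Incl

/-!
# Two Lorentz forms without common tangent planes are comparable.  Size: M.

PROOF.  `N₁`, `N₂` from `lor_inv`; `S₁₂ P = bil N₁ (mul M₂ P) (mul M₂ P)`, `S₂₁ Y = bil N₂ (mul M₁ Y) (mul M₁ Y)`.  `NoCT M₂ M₁` follows from `NoCT M₁ M₂` (if `Y ≠ 0`, `bil M₁ Y Y = 0`, `bil M₂ P P = 0`, `mul M₁ Y = mul M₂ P`, then
`P ≠ 0` (`lor_ker` for `M₁`), `P = c Y`, `c ≠ 0`, `Y = c⁻¹ P`).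
If `S₁₂ ≤ 0` on the null vectors of `M₂`: left side by `incl`.  If `S₂₁ ≤ 0` on the null vectors of `M₁`: right side by `incl` (roles exchanged).  Otherwise, by `sgn` (if `S₁₂ P > 0` for some null `P` then `S₁₂ ≥ 0` for all null vectors),
`S₁₂ ≥ 0` on the null vectors of `M₂`, `S₂₁ ≥ 0` on the null vectors of `M₁`, and there is `P` with `bil M₂ P P = 0`, `S₁₂ P > 0`; after `P ↦ -P` we may assume `P 0 ≤ 0`.  Let `ν = mul M₂ P`, and for `r ≥ 0` `ν_r = ee 0 + r ν`.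
`bil N₂ ν_r ν_r = bil N₂ (ee 0) (ee 0) + 2 r bil N₂ (ee 0) ν + r² bil N₂ ν ν`, where `bil N₂ (ee 0) ν = ee 0 ⬝ mul N₂ (mul M₂ P) = P 0 ≤ 0`, `bil N₂ ν ν = bil M₂ P P = 0`, so it is `< 0` (`lor_e0`).  `bil N₁ ν_r ν_r` is `< 0` for `r = 0`
(`lor_e0`) and `> 0` for large `r` (leading coefficient `S₁₂ P > 0`): there is `r > 0` with `bil N₁ ν_r ν_r = 0`.  `Y = mul N₁ ν_r`: `bil M₁ Y Y = bil N₁ ν_r ν_r = 0`, `mul M₁ Y = ν_r`, `S₂₁ Y = bil N₂ ν_r ν_r < 0`: contradiction.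
-/

namespace Pool.Agent.Work.MP_659252_gt.SP

open scoped ContDiff Topology
open Pool.Agent.Work.MP_659252_gt.Z (V Ten val Tan InT)
open Pool.Agent.Work.MP_659252_gt.QR

variable {d : ℕ}

theorem compar (hd : 2 ≤ d) (M₁ M₂ : Mat d) (h₁ : Lor M₁) (h₂ : Lor M₂) (hC : NoCT M₁ M₂) :
    (∀ x : V d, bil M₁ x x ≤ 0 → bil M₂ x x ≤ 0) ∨ ∀ x : V d, bil M₂ x x ≤ 0 → bil M₁ x x ≤ 0 := by
  obtain ⟨N₁, hN₁, _, hinv₁⟩ := lor_inv M₁ h₁
  obtain ⟨N₂, hN₂, hl₂, hinv₂⟩ := lor_inv M₂ h₂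
  have hC' : NoCT M₂ M₁ := by
    intro P Y hP hP0 hY0 hPY
    have hY : Y ≠ 0 := by
      intro h0
      apply hP
      apply lor_ker M₁ h₁
      rw [hPY, h0]
      funext i
      simp [mul]
    obtain ⟨c, hc⟩ := hC Y P hY hY0 hP0 hPY.symm
    have hc0 : c ≠ 0 := by
      intro h0
      apply hY
      rw [hc, h0, zero_smul]
    exact ⟨c⁻¹, by rw [hc, smul_smul, inv_mul_cancel₀ hc0, one_smul]⟩
  by_contra hcon
  rw [not_or] at hcon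
  obtain ⟨hA, hB⟩ := hcon
  have hA' : ∃ P : V d, bil M₂ P P = 0 ∧ 0 < bil N₁ (mul M₂ P) (mul M₂ P) := by
    by_contra h
    apply hA
    apply incl hd M₁ M₂ N₁ h₁ h₂ hN₁ hinv₁
    intro P hP
    by_contra h'
    exact h ⟨P, hP, not_le.1 h'⟩
  have hB' : ∃ Y : V d, bil M₁ Y Y = 0 ∧ 0 < bil N₂ (mul M₁ Y) (mul M₁ Y) := by
    by_contra h
    apply hB
    apply incl hd M₂ M₁ N₂ h₂ h₁ hN₂ hinv₂
    intro P hP
    by_contra h'
    exact h ⟨P, hP, not_le.1 h'⟩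
  obtain ⟨Y0, hY0, hY0p⟩ := hB'
  have hsgn : ∀ Y : V d, bil M₁ Y Y = 0 → 0 ≤ bil N₂ (mul M₁ Y) (mul M₁ Y) := by
    intro Y hY
    by_contra h
    exact sgn hd M₂ M₁ N₂ h₂ h₁ hN₂ hinv₂ hC' Y0 Y hY0 hY hY0p (not_le.1 h)
  have hP' : ∃ P : V d, bil M₂ P P = 0 ∧ 0 < bil N₁ (mul M₂ P) (mul M₂ P) ∧ P 0 ≤ 0 := by
    obtain ⟨P, hP, hPp⟩ := hA'
    rcases le_total (P 0) 0 with h | h
    · exact ⟨P, hP, hPp, h⟩
    · refine ⟨-P, ?_, ?_, ?_⟩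
      · rw [bil_neg_left, bil_neg_right, neg_neg, hP]
      · have h1 : mul M₂ (-P) = -mul M₂ P := by
          have := mul_smul M₂ (-1) P
          rwa [neg_one_smul, neg_one_smul] at this
        rw [h1, bil_neg_left, bil_neg_right, neg_neg]
        exact hPp
      · show -(P 0) ≤ 0
        linarith
  obtain ⟨P, hP, hPp, hP0⟩ := hP'
  set ν : V d := mul M₂ P with hν
  have e1 : bil N₂ ν ν = 0 := by
    rw [bil_eq_dot, hν, hl₂, dotProduct_comm, ← bil_eq_dot]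
    exact hP
  have e2 : bil N₂ (ee 0) ν = P 0 := by
    rw [bil_eq_dot, hν, hl₂, dotProduct_comm, dot_ee]
  have e3 := lor_e0 M₂ N₂ h₂ hN₂ hinv₂
  have e4 := lor_e0 M₁ N₁ h₁ hN₁ hinv₁
  set a : ℝ := bil N₁ (ee 0) (ee 0) with ha
  set b : ℝ := bil N₁ (ee 0) ν with hb
  set c : ℝ := bil N₁ ν ν with hc
  have hexp : ∀ (N : Mat d), (∀ i j, N i j = N j i) → ∀ r : ℝ,
      bil N (ee 0 + r • ν) (ee 0 + r • ν) =
        bil N (ee 0) (ee 0) + 2 * r * bil N (ee 0) ν + r ^ 2 * bil N ν ν := by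
    intro N hN r
    rw [bil_add_left, bil_add_right, bil_add_right, bil_smul_left, bil_smul_right,
      bil_smul_left, bil_smul_right, bil_comm hN ν (ee 0)]
    ring
  have hdisc : 0 ≤ b ^ 2 - a * c := by nlinarith [sq_nonneg b, mul_pos (neg_pos.2 e4) hPp]
  have hsq := Real.sq_sqrt hdisc
  set D : ℝ := √(b ^ 2 - a * c) with hD
  have hDb : b ≤ D := by
    apply Real.le_sqrt_of_sq_le
    nlinarith [mul_pos (neg_pos.2 e4) hPp]
  set r : ℝ := (-b + D) / c with hr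
  have hr0 : 0 ≤ r := div_nonneg (by linarith) hPp.le
  have hrc : r * c = -b + D := by
    rw [hr, div_mul_cancel₀]
    exact hPp.ne'
  have hroot : a + 2 * r * b + r ^ 2 * c = 0 := by
    have h1 : c * (a + 2 * r * b + r ^ 2 * c) = 0 := by
      have : c * (a + 2 * r * b + r ^ 2 * c) = a * c + 2 * b * (r * c) + (r * c) ^ 2 := by ring
      rw [this, hrc]
      linear_combination hsq
    exact (mul_eq_zero.1 h1).resolve_left hPp.ne'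
  set Y : V d := mul N₁ (ee 0 + r • ν) with hY
  have hMY : mul M₁ Y = ee 0 + r • ν := by rw [hY, hinv₁]
  have hY1 : bil M₁ Y Y = 0 := by
    rw [bil_eq_dot, hMY, hY, dotProduct_comm, ← bil_eq_dot, hexp N₁ hN₁ r]
    exact hroot
  have h5 := hsgn Y hY1
  rw [hMY, hexp N₂ hN₂ r, e1, e2] at h5
  have h6 : r * P 0 ≤ 0 := mul_nonpos_of_nonneg_of_nonpos hr0 hP0
  linarith

end Pool.Agent.Work.MP_659252_gt.SP
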