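import Pool.Agent.Work.MP_659252_gt.SP.G.LorA

/-!
# The inverse form; orthogonal null vectors.  Size: M.

PROOFS.
`lor_inv`: `Matrix.of M` has trivial kernel (`lor_ker`), so it is invertible (`Matrix.exists_mulVec_eq_zero_iff`, `Matrix.mulVec_injective_iff_isUnit` or `LinearMap.injective_iff_surjective`); `N = (Matrix.of M)⁻¹`,
symmetric (`Matrix.transpose_nonsing_inv`).
`lor_e0`: `E = mul N (ee 0)`: `bil M E z = z ⬝ mul M E = z 0` for all `z` (`bil_comm`, `bil_eq_dot`, `dot_ee`).  With `m = E 0 = bil M E E`: if `m = 0` then `E 0 = 0` and `E ≠ 0` (`mul M E = ee 0 ≠ 0`), so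
`0 < bil M E E = m` by `pos`: contradiction.  If `m > 0`: every `u` is `(u 0/m) E + z` with `z 0 = 0`, `M(u) = (u 0/m)² m + M(z) ≥ 0`: contradiction to `neg`.  So `m < 0`; and `bil N (ee 0) (ee 0) = ee 0 ⬝ E = E 0 = m`.
`lor_nullvec` (`x` with `M(x) > 0`, `d ≥ 2`): take `u` with `M(u) < 0`, `u' = u - (M(u,x)/M(x)) x`: `M(u', x) = 0`, `M(u') = M(u) - M(u,x)²/M(x) < 0`.  The space of `z` with `M(z, x) = M(z, u') = 0` has dimension
`≥ d + 1 - 2 ≥ 1`: take `z ≠ 0` in it; `M(z) > 0` by `lor_orth` (`u'`, `z`).  `P = u' + s z`, `s = √(-M(u')/M(z))`: `M(P) = M(u') + s² M(z) = 0`, `M(P, x) = 0`, and `P ≠ 0` as `M(P, u') = M(u') ≠ 0`.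
-/

namespace Pool.Agent.Work.MP_659252_gt.SP

open scoped ContDiff Topology
open Pool.Agent.Work.MP_659252_gt.Z (V Ten val Tan InT)
open Pool.Agent.Work.MP_659252_gt.QR

variable {d : ℕ}

theorem lor_inv (M : Mat d) (h : Lor M) : ∃ N : Mat d, (∀ i j, N i j = N j i) ∧ (∀ x, mul N (mul M x) = x) ∧
    ∀ y, mul M (mul N y) = y := by
  have hker := lor_ker M h
  have hmul : ∀ v : V d, Matrix.mulVec (Matrix.of M) v = mul M v := fun v => rfl
  have hinj : Function.Injective (Matrix.mulVec (Matrix.of M)) := by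
    intro x y hxy
    have h1 : mul M (x - y) = 0 := by
      rw [← hmul, Matrix.mulVec_sub, sub_eq_zero]
      exact hxy
    exact sub_eq_zero.1 (hker _ h1)
  have hu : IsUnit (Matrix.of M) := Matrix.mulVec_injective_iff_isUnit.1 hinj
  have hdet : IsUnit (Matrix.of M).det := (Matrix.isUnit_iff_isUnit_det _).1 hu
  have hT : (Matrix.of M).transpose = Matrix.of M := by
    ext i j
    exact h.symm j i
  refine ⟨fun i j => (Matrix.of M)⁻¹ i j, ?_, ?_, ?_⟩
  · intro i j
    have h1 := Matrix.transpose_nonsing_inv (Matrix.of M)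
    rw [hT] at h1
    have h2 := congrFun (congrFun h1 j) i
    exact h2
  · intro x
    have h1 : mul (fun i j => (Matrix.of M)⁻¹ i j) (mul M x) =
        Matrix.mulVec (Matrix.of M)⁻¹ (Matrix.mulVec (Matrix.of M) x) := rfl
    rw [h1, Matrix.mulVec_mulVec, Matrix.nonsing_inv_mul _ hdet, Matrix.one_mulVec]
  · intro y
    have h1 : mul M (mul (fun i j => (Matrix.of M)⁻¹ i j) y) =
        Matrix.mulVec (Matrix.of M) (Matrix.mulVec (Matrix.of M)⁻¹ y) := rfl
    rw [h1, Matrix.mulVec_mulVec, Matrix.mul_nonsing_inv _ hdet, Matrix.one_mulVec]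

theorem lor_e0 (M N : Mat d) (h : Lor M) (hN : ∀ i j, N i j = N j i) (h1 : ∀ y, mul M (mul N y) = y) :
    bil N (ee 0) (ee 0) < 0 := by
  set E : V d := mul N (ee 0) with hE
  have hME : mul M E = ee 0 := h1 (ee 0)
  have hz : ∀ z : V d, bil M z E = z 0 := by
    intro z
    rw [bil_eq_dot, hME, dot_ee]
  have hNE : bil N (ee 0) (ee 0) = E 0 := by
    rw [bil_eq_dot, ← hE, dotProduct_comm, dot_ee]
  rw [hNE]
  have hnn : ∀ z : V d, z 0 = 0 → 0 ≤ bil M z z := by
    intro z hz0
    by_cases hz1 : z = 0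
    · rw [hz1, bil_eq_dot, zero_dotProduct]
    · exact (h.pos z hz1 hz0).le
  have hE0 : E ≠ 0 := by
    intro h0
    have h2 : mul M E = 0 := by
      rw [h0]
      funext i
      simp [mul]
    rw [hME] at h2
    have h3 := congrFun h2 0
    simp [ee] at h3
  rcases lt_trichotomy (E 0) 0 with hlt | heq | hgt
  · exact hlt
  · exfalso
    have h2 := h.pos E hE0 heq
    rw [hz E, heq] at h2
    exact lt_irrefl _ h2
  · exfalso
    obtain ⟨u, hu⟩ := h.neg
    set c : ℝ := u 0 / E 0 with hc
    set z : V d := u - c • E with hzd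
    have hz0 : z 0 = 0 := by
      rw [hzd, Pi.sub_apply, Pi.smul_apply, smul_eq_mul, hc, div_mul_cancel₀ _ hgt.ne', sub_self]
    have hu' : u = z + c • E := by
      rw [hzd, sub_add_cancel]
    have h4 : bil M u u = bil M z z + c ^ 2 * E 0 := by
      rw [hu', bil_add_left, bil_add_right, bil_add_right, bil_smul_left, bil_smul_left,
        bil_smul_right, bil_smul_right, hz z, hz E, bil_comm h.symm E z, hz z, hz0]
      ring
    have h5 := hnn z hz0
    have h6 : 0 ≤ c ^ 2 * E 0 := by positivity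
    linarith

theorem lor_nullvec (hd : 2 ≤ d) (M : Mat d) (h : Lor M) (x : V d) (hx : 0 < bil M x x) :
    ∃ P : V d, P ≠ 0 ∧ bil M P P = 0 ∧ bil M P x = 0 := by
  obtain ⟨u, hu⟩ := h.neg
  set c : ℝ := bil M u x / bil M x x with hc
  set u' : V d := u - c • x with hu'
  have hcx : c * bil M x x = bil M u x := by
    rw [hc]
    field_simp
  have hux : bil M u' x = 0 := by
    rw [hu', bil_sub_left, bil_smul_left, hcx, sub_self]
  have huu : bil M u' u' < 0 := by
    have h1 : bil M u' u' = bil M u u - c ^ 2 * bil M x x := by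
      have h2 : bil M u' u' = bil M u' u := by
        conv_lhs => rw [hu', bil_sub_right, ← hu', bil_smul_right, hux, mul_zero, sub_zero]
      rw [h2, hu', bil_sub_left, bil_smul_left, bil_comm h.symm x u, ← hcx]
      ring
    have h3 : 0 ≤ c ^ 2 * bil M x x := by positivity
    linarith
  obtain ⟨z, hz0, hzx, hzu⟩ : ∃ z : V d, z ≠ 0 ∧ bil M z x = 0 ∧ bil M z u' = 0 := by
    let L : V d →ₗ[ℝ] (Fin 2 → ℝ) :=
      { toFun := fun z => ![bil M z x, bil M z u']
        map_add' := fun a b => by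
          funext i
          fin_cases i
          · exact bil_add_left M a b x
          · exact bil_add_left M a b u'
        map_smul' := fun r a => by
          funext i
          fin_cases i
          · exact bil_smul_left M r a x
          · exact bil_smul_left M r a u' }
    have hfr : Module.finrank ℝ (Fin 2 → ℝ) < Module.finrank ℝ (V d) := by
      rw [Module.finrank_fin_fun, Module.finrank_fin_fun]
      omega
    have hk := LinearMap.ker_ne_bot_of_finrank_lt (f := L) hfr
    obtain ⟨z, hz, hz0⟩ := Submodule.exists_mem_ne_zero_of_ne_bot hk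
    have h1 : L z = 0 := hz
    exact ⟨z, hz0, congrFun h1 0, congrFun h1 1⟩
  have huz : bil M u' z = 0 := by rw [bil_comm h.symm, hzu]
  have hzz : 0 < bil M z z := lor_orth M h u' z huu huz hz0
  set t : ℝ := Real.sqrt (-bil M u' u' / bil M z z) with ht
  have ht2 : t ^ 2 * bil M z z = -bil M u' u' := by
    rw [ht, Real.sq_sqrt (div_nonneg (by linarith) hzz.le)]
    field_simp
  refine ⟨u' + t • z, ?_, ?_, ?_⟩
  · intro h0
    have h1 : bil M (u' + t • z) u' = bil M u' u' := by
      rw [bil_add_left, bil_smul_left, hzu]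
      ring
    rw [h0, bil_eq_dot, zero_dotProduct] at h1
    linarith
  · rw [bil_add_left, bil_add_right, bil_add_right, bil_smul_left, bil_smul_left, bil_smul_right,
      bil_smul_right, huz, hzu]
    linear_combination ht2
  · rw [bil_add_left, bil_smul_left, hux, hzx]
    ring

end Pool.Agent.Work.MP_659252_gt.SP
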