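import Pool.Agent.Work.MP_659252_gt.SP.GDefs

/-!
# Quartic polynomials.  Size: S-M.

PROOF.  `p t = a₀ + a₁ t + a₂ t² + a₃ t³ + a₄ t⁴`, `a₀ > 0`, `a₄ < 0`.  `p 0 > 0` and `p t → -∞` as `t → ±∞`, so there are roots `r > 0` and `s < 0` (intermediate value theorem).  Suppose `p' r = 0` and `p' s = 0`.  Then
`p t = a₄ (t - r)² (t - s)²` for all `t`: the difference is a polynomial of degree `≤ 3` with double roots at `r ≠ s`, so it is zero (four linear equations in `a₀, ..., a₃`; e.g. divide twice, or: `q t = p t - a₄ (t-r)²(t-s)² =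
c₀ + c₁ t + c₂ t² + c₃ t³` with `q r = q' r = q s = q' s = 0`; `(s - r)³ c₃ = (s - r)(q' r + q' s) - 2 (q s - q r)`, and so on).  At `t = 0`: `a₀ = a₄ r² s² < 0`: contradiction.
-/

namespace Pool.Agent.Work.MP_659252_gt.SP

open scoped ContDiff Topology
open Pool.Agent.Work.MP_659252_gt.Z (V Ten val Tan InT)
open Pool.Agent.Work.MP_659252_gt.QR

variable {d : ℕ}

private theorem quart_root (a₀ a₁ a₂ a₃ a₄ : ℝ) (h0 : 0 < a₀) (h4 : a₄ < 0) :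
    ∃ r : ℝ, 0 < r ∧ a₀ + a₁ * r + a₂ * r ^ 2 + a₃ * r ^ 3 + a₄ * r ^ 4 = 0 := by
  obtain ⟨S, hS⟩ : ∃ S : ℝ, S = a₀ + |a₁| + |a₂| + |a₃| := ⟨_, rfl⟩
  have hS0 : 0 < S := by
    have := abs_nonneg a₁
    have := abs_nonneg a₂
    have := abs_nonneg a₃
    linarith
  obtain ⟨R, hR⟩ : ∃ R : ℝ, R = 1 + S / (-a₄) := ⟨_, rfl⟩
  have hR1 : 1 ≤ R := by
    have : 0 < S / (-a₄) := div_pos hS0 (by linarith)
    linarith
  have hRS : S + a₄ * R = a₄ := by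
    have e : a₄ * (S / a₄) = S := mul_div_cancel₀ _ h4.ne
    rw [hR, div_neg]
    linear_combination (-1 : ℝ) * e
  have b1 : a₁ * R ≤ |a₁| * R ^ 3 := by
    have e1 : a₁ * R ≤ |a₁| * R := mul_le_mul_of_nonneg_right (le_abs_self _) (by linarith)
    have e2 : |a₁| * R ≤ |a₁| * R ^ 3 :=
      mul_le_mul_of_nonneg_left (by nlinarith [sq_nonneg (R - 1), mul_nonneg (sub_nonneg.2 hR1) (sub_nonneg.2 hR1)]) (abs_nonneg _)
    linarith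
  have b2 : a₂ * R ^ 2 ≤ |a₂| * R ^ 3 := by
    have e1 : a₂ * R ^ 2 ≤ |a₂| * R ^ 2 := mul_le_mul_of_nonneg_right (le_abs_self _) (by positivity)
    have e2 : |a₂| * R ^ 2 ≤ |a₂| * R ^ 3 :=
      mul_le_mul_of_nonneg_left (pow_le_pow_right₀ hR1 (by norm_num)) (abs_nonneg _)
    linarith
  have b3 : a₃ * R ^ 3 ≤ |a₃| * R ^ 3 :=
    mul_le_mul_of_nonneg_right (le_abs_self _) (by positivity)
  have b0 : a₀ ≤ a₀ * R ^ 3 := le_mul_of_one_le_right h0.le (one_le_pow₀ hR1)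
  have hpR : a₀ + a₁ * R + a₂ * R ^ 2 + a₃ * R ^ 3 + a₄ * R ^ 4 < 0 := by
    have e : (a₀ + |a₁| + |a₂| + |a₃|) * R ^ 3 + a₄ * R ^ 4 = a₄ * R ^ 3 := by
      rw [← hS]
      linear_combination R ^ 3 * hRS
    have e2 : a₄ * R ^ 3 < 0 := mul_neg_of_neg_of_pos h4 (by positivity)
    linarith
  have hc : ContinuousOn (fun r : ℝ => a₀ + a₁ * r + a₂ * r ^ 2 + a₃ * r ^ 3 + a₄ * r ^ 4)
      (Set.Icc 0 R) := by
    fun_prop
  obtain ⟨r, hr, hr0⟩ := intermediate_value_Icc' (by linarith : (0 : ℝ) ≤ R) hc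
    (show (0 : ℝ) ∈ Set.Icc _ _ from ⟨hpR.le, by simpa using h0.le⟩)
  refine ⟨r, lt_of_le_of_ne hr.1 ?_, hr0⟩
  rintro rfl
  simp at hr0
  exact h0.ne' hr0

theorem quart (a₀ a₁ a₂ a₃ a₄ : ℝ) (h0 : 0 < a₀) (h4 : a₄ < 0)
    (h : ∀ t : ℝ, a₀ + a₁ * t + a₂ * t ^ 2 + a₃ * t ^ 3 + a₄ * t ^ 4 = 0 →
      a₁ + 2 * a₂ * t + 3 * a₃ * t ^ 2 + 4 * a₄ * t ^ 3 = 0) : False := by
  obtain ⟨r, hr, hpr⟩ := quart_root a₀ a₁ a₂ a₃ a₄ h0 h4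
  obtain ⟨s', hs', hps'⟩ := quart_root a₀ (-a₁) a₂ (-a₃) a₄ h0 h4
  obtain ⟨s, hs⟩ : ∃ s : ℝ, s = -s' := ⟨_, rfl⟩
  have hs0 : s < 0 := by linarith
  have hps : a₀ + a₁ * s + a₂ * s ^ 2 + a₃ * s ^ 3 + a₄ * s ^ 4 = 0 := by
    rw [hs, ← hps']
    ring
  have hr' := h r hpr
  have hs1 := h s hps
  have key : (r - s) ^ 3 * (a₀ - a₄ * r ^ 2 * s ^ 2) = 0 := by
    linear_combination (3 * r - s) * s ^ 2 * hpr - r * s ^ 2 * (r - s) * hr' +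
      (r - 3 * s) * r ^ 2 * hps - s * r ^ 2 * (r - s) * hs1
  have hrs : 0 < (r - s) ^ 3 := pow_pos (by linarith) 3
  have h5 : a₀ - a₄ * r ^ 2 * s ^ 2 = 0 := by
    rcases mul_eq_zero.1 key with h | h
    · exact absurd h hrs.ne'
    · exact h
  have h6 : a₄ * r ^ 2 * s ^ 2 ≤ 0 :=
    mul_nonpos_of_nonpos_of_nonneg (mul_nonpos_of_nonpos_of_nonneg h4.le (sq_nonneg _)) (sq_nonneg _)
  linarith

end Pool.Agent.Work.MP_659252_gt.SP
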