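import Pool.Agent.Work.MP_659252_gt.SP.G.LorB
import Pool.Agent.Work.MP_659252_gt.SP.G.Quart

/-!
# The dual form of `M₁` has a sign on the dual null cone of `M₂`.  Size: M.

PROOF.  Let `B = bil M₂ P P'`.  `B ≠ 0`: otherwise `lor_null` (`x = P`, `y = P'`) gives `P' = c P`, and then `bil N₁ (M₂ P') (M₂ P') = c² bil N₁ (M₂ P) (M₂ P) ≥ 0`: contradiction.  (`P ≠ 0`, `P' ≠ 0` because the values of
the forms are nonzero.)  Choose `z ≠ 0` with `bil M₂ P z = 0`, `bil M₂ P' z = 0` (two linear equations, `d + 1 ≥ 3` unknowns).  `w = P - sgn(B) P'`-type vector: `M₂ (P + s P') = 2 s B < 0` for `s = -B`, and `z` is orthogonal to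
it, so `g = bil M₂ z z > 0` (`lor_orth`).  Let `κ = -g/(2 B) ≠ 0`, `γ t = P + t z + κ t² P'`: `bil M₂ (γ t) (γ t) = t² g + 2 κ t² B = 0` for all `t`.  `bil M₂ (γ t) P' = B ≠ 0`, so `γ t ≠ 0`.
`p t = bil N₁ (M₂ γ t) (M₂ γ t)` is a quartic polynomial in `t` with `a₀ = bil N₁ (M₂ P) (M₂ P) > 0` and `a₄ = κ² bil N₁ (M₂ P') (M₂ P') < 0` (coefficients: `a₁ = 2 N(P, z)`, `a₂ = N(z, z) + 2 κ N(P, P')`, `a₃ = 2 κ N(z, P')`,
where `N(x, y) = bil N₁ (mul M₂ x) (mul M₂ y)`).  If `p t = 0`: `Y = mul N₁ (mul M₂ (γ t))` satisfies `mul M₁ Y = mul M₂ (γ t)`, `bil M₁ Y Y = Y ⬝ mul M₁ Y = p t = 0`, so by `NoCT` `γ t = c Y`, `c ≠ 0` (`γ t ≠ 0`).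
`p' t = 2 N(γ t, γ' t) = 2 (mul N₁ (mul M₂ γ t)) ⬝ (mul M₂ γ' t) = 2 Y ⬝ mul M₂ γ' = 2 c⁻¹ bil M₂ (γ t) (γ' t) = 0`, where `γ' = z + 2 κ t P'` and `bil M₂ (γ t) (γ' t) = t g + 2 κ t B = 0`.  `quart`: contradiction.
-/

namespace Pool.Agent.Work.MP_659252_gt.SP

open scoped ContDiff Topology
open Pool.Agent.Work.MP_659252_gt.Z (V Ten val Tan InT)
open Pool.Agent.Work.MP_659252_gt.QR

variable {d : ℕ}

theorem sgn (hd : 2 ≤ d) (M₁ M₂ N₁ : Mat d) (h₁ : Lor M₁) (h₂ : Lor M₂) (hN : ∀ i j, N₁ i j = N₁ j i)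
    (hinv : ∀ y, mul M₁ (mul N₁ y) = y) (hC : NoCT M₁ M₂) (P P' : V d) (hP : bil M₂ P P = 0)
    (hP' : bil M₂ P' P' = 0) (hp : 0 < bil N₁ (mul M₂ P) (mul M₂ P))
    (hp' : bil N₁ (mul M₂ P') (mul M₂ P') < 0) : False := by
  set N : V d → V d → ℝ := fun x y => bil N₁ (mul M₂ x) (mul M₂ y) with hNd
  have hNs : ∀ x y, N x y = N y x := fun x y => bil_comm hN _ _
  have hNal : ∀ x y z, N (x + y) z = N x z + N y z := by
    intro x y z
    simp only [hNd, mul_add, bil_add_left]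
  have hNar : ∀ x y z, N z (x + y) = N z x + N z y := by
    intro x y z
    simp only [hNd, mul_add, bil_add_right]
  have hNsl : ∀ (c : ℝ) x y, N (c • x) y = c * N x y := by
    intro c x y
    simp only [hNd, mul_smul, bil_smul_left]
  have hNsr : ∀ (c : ℝ) x y, N x (c • y) = c * N x y := by
    intro c x y
    simp only [hNd, mul_smul, bil_smul_right]
  have hpN : 0 < N P P := hp
  have hpN' : N P' P' < 0 := hp'
  have hP0 : P ≠ 0 := by
    intro h
    have h1 : N P P = 0 := by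
      have h2 := hNsl 0 P P
      rw [zero_smul, zero_mul, h] at h2
      rw [h]
      exact h2
    linarith
  have hP0' : P' ≠ 0 := by
    intro h
    have h1 : N P' P' = 0 := by
      have h2 := hNsl 0 P' P'
      rw [zero_smul, zero_mul, h] at h2
      rw [h]
      exact h2
    linarith
  set B : ℝ := bil M₂ P P' with hB
  have hBc : bil M₂ P' P = B := bil_comm h₂.symm _ _
  have hB0 : B ≠ 0 := by
    intro h
    obtain ⟨-, h2⟩ := lor_null M₂ h₂ P P' hP0 hP h
    obtain ⟨c, hc⟩ := h2 hP'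
    have h3 : N P' P' = c ^ 2 * N P P := by
      rw [hc, hNsl, hNsr]
      ring
    have h4 : 0 ≤ c ^ 2 * N P P := by positivity
    linarith
  obtain ⟨z, hz0, hzP, hzP'⟩ : ∃ z : V d, z ≠ 0 ∧ bil M₂ z P = 0 ∧ bil M₂ z P' = 0 := by
    let L : V d →ₗ[ℝ] (Fin 2 → ℝ) :=
      { toFun := fun z => ![bil M₂ z P, bil M₂ z P']
        map_add' := fun a b => by
          funext i
          fin_cases i
          · exact bil_add_left M₂ a b P
          · exact bil_add_left M₂ a b P'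
        map_smul' := fun r a => by
          funext i
          fin_cases i
          · exact bil_smul_left M₂ r a P
          · exact bil_smul_left M₂ r a P' }
    have hfr : Module.finrank ℝ (Fin 2 → ℝ) < Module.finrank ℝ (V d) := by
      rw [Module.finrank_fin_fun, Module.finrank_fin_fun]
      omega
    have hk := LinearMap.ker_ne_bot_of_finrank_lt (f := L) hfr
    obtain ⟨z, hz, hz0⟩ := Submodule.exists_mem_ne_zero_of_ne_bot hk
    have h1 : L z = 0 := hz
    exact ⟨z, hz0, congrFun h1 0, congrFun h1 1⟩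
  have hPz : bil M₂ P z = 0 := by rw [bil_comm h₂.symm, hzP]
  have hPz' : bil M₂ P' z = 0 := by rw [bil_comm h₂.symm, hzP']
  set g : ℝ := bil M₂ z z with hg
  have hgpos : 0 < g := by
    refine lor_orth M₂ h₂ (P + (-B) • P') z ?_ ?_ hz0
    · rw [bil_add_left, bil_add_right, bil_add_right, bil_smul_left, bil_smul_left,
        bil_smul_right, bil_smul_right, hP, hP', hBc, ← hB]
      have h1 : 0 < B ^ 2 := by positivity
      nlinarith
    · rw [bil_add_left, bil_smul_left, hPz, hPz']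
      ring
  set κ : ℝ := -g / (2 * B) with hκ
  have hκB : 2 * κ * B = -g := by
    rw [hκ]
    field_simp
  have hκ0 : κ ≠ 0 := by
    intro h
    rw [h] at hκB
    linarith
  set γ : ℝ → V d := fun t => P + (t • z + (κ * t ^ 2) • P') with hγ
  set γ' : ℝ → V d := fun t => z + (2 * κ * t) • P' with hγ'
  have hN2 : ∀ t, N (γ t) (γ t) = N P P + t * (2 * N P z) + t ^ 2 * (N z z + 2 * κ * N P P') +
      t ^ 3 * (2 * κ * N z P') + t ^ 4 * (κ ^ 2 * N P' P') := by
    intro t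
    simp only [hγ, hNal, hNar, hNsl, hNsr]
    rw [hNs z P, hNs P' P, hNs P' z]
    ring
  have hNd2 : ∀ t, 2 * N (γ t) (γ' t) = 2 * N P z + 2 * t * (N z z + 2 * κ * N P P') +
      3 * t ^ 2 * (2 * κ * N z P') + 4 * t ^ 3 * (κ ^ 2 * N P' P') := by
    intro t
    simp only [hγ, hγ', hNal, hNar, hNsl, hNsr]
    rw [hNs P' z]
    ring
  have hnull : ∀ t, bil M₂ (γ t) (γ t) = 0 := by
    intro t
    simp only [hγ, bil_add_left, bil_add_right, bil_smul_left, bil_smul_right]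
    rw [hP, hPz, hzP, hPz', hzP', hP', hBc, ← hB, ← hg]
    linear_combination t ^ 2 * hκB
  have htan : ∀ t, bil M₂ (γ t) (γ' t) = 0 := by
    intro t
    simp only [hγ, hγ', bil_add_left, bil_add_right, bil_smul_left, bil_smul_right]
    rw [hPz, hPz', hzP', hP', ← hB, ← hg]
    linear_combination t * hκB
  have hγ0 : ∀ t, γ t ≠ 0 := by
    intro t h0
    have h1 : bil M₂ (γ t) P' = B := by
      simp only [hγ, bil_add_left, bil_smul_left]
      rw [hzP', hP', ← hB]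
      ring
    rw [h0] at h1
    have h2 := bil_smul_left M₂ 0 (0 : V d) P'
    rw [zero_smul, zero_mul] at h2
    exact hB0 (h1.symm.trans h2)
  refine quart (N P P) (2 * N P z) (N z z + 2 * κ * N P P') (2 * κ * N z P') (κ ^ 2 * N P' P')
    hpN ?_ ?_
  · have h1 : 0 < κ ^ 2 := by positivity
    nlinarith
  intro t ht
  have hp0 : N (γ t) (γ t) = 0 := by
    rw [hN2 t]
    linear_combination ht
  set Y : V d := mul N₁ (mul M₂ (γ t)) with hY
  have hMY : mul M₁ Y = mul M₂ (γ t) := hinv _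
  have hYY : bil M₁ Y Y = 0 := by
    rw [bil_eq_dot, hMY, dotProduct_comm, hY, ← bil_eq_dot]
    exact hp0
  obtain ⟨c, hc⟩ := hC (γ t) Y (hγ0 t) (hnull t) hYY hMY.symm
  have hc0 : c ≠ 0 := by
    intro h
    apply hγ0 t
    rw [hc, h, zero_smul]
  have hd0 : N (γ t) (γ' t) = 0 := by
    have h1 : N (γ t) (γ' t) = mul M₂ (γ' t) ⬝ᵥ Y := by
      rw [hNs]
      simp only [hNd]
      rw [bil_eq_dot, ← hY]
    have h2 : c * (mul M₂ (γ' t) ⬝ᵥ Y) = 0 := by
      have h3 : bil M₂ (γ t) (γ' t) = c * (mul M₂ (γ' t) ⬝ᵥ Y) := by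
        rw [bil_eq_dot, dotProduct_comm]
        conv_lhs => rw [hc]
        rw [dotProduct_smul, smul_eq_mul]
      rw [← h3]
      exact htan t
    rw [h1]
    rcases mul_eq_zero.1 h2 with h3 | h3
    · exact absurd h3 hc0
    · exact h3
  have h4 := hNd2 t
  rw [hd0] at h4
  linear_combination -h4

end Pool.Agent.Work.MP_659252_gt.SP
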