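import Pool.Agent.Work.MP_659252_gt.SP.G.LorA

/-!
# The strict S-lemma.  Size: M.

PROOF.  Write `M(x) = bil M x x`.  `{M₁ ≤ 0}` contains a vector `y₀` with `M₁(y₀) < 0`.  Work on the unit sphere of the norm (compact, homogeneity of degree 2).
(1) On the compact set `{‖x‖ = 1, M₁(x) ≤ 0}`: `M₂(x) ≤ -δ₀ < 0`.
(2) The function `φ = M₂/M₁ > 0` on `{M₁ < 0}` attains its minimum `μ > 0` at some `y`: let `φ₀ = φ(y₀)`; where `-η < M₁ < 0`, `‖x‖ = 1`, `φ ≥ δ₀/η > φ₀` for small `η`, and `{‖x‖ = 1, M₁ ≤ -η}` is compact.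
(3) For `x` with `M₁(x) > 0`: `M₂(x) < μ M₁(x)`.  Otherwise `F = M₂ - μ M₁` has `F(x) ≥ 0`, `F(y) = 0`; after `x ↦ -x` the mixed value `F(x, y) ≥ 0`, so `F(x + t y) = F(x) + 2 t F(x,y) ≥ 0` for `t ≥ 0`; `M₁(x + t y)` is `> 0` at
`t = 0` and `< 0` for large `t`: there is `t > 0` with `M₁(x + t y) = 0`, and `x + t y ≠ 0` (otherwise `M₁(x) = t² M₁(y) < 0`); there `M₂(x + t y) = F(x + t y) ≥ 0`: contradiction to the hypothesis.
(4) For `M₁(x) < 0`: `M₂(x) ≤ μ M₁(x)` (as `φ(x) ≥ μ`).  For `M₁(x) = 0`, `x ≠ 0`: `M₂(x) < 0 = μ M₁(x)`.  So `F ≤ 0`, and `F < 0` on the compact set `{‖x‖ = 1, M₁(x) ≥ 0}`: `F ≤ -δ₁` there.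
Let `λ = μ - ε`, `ε > 0` small (`ε < μ`, `ε |M₁| < δ₁` on the unit sphere): for `M₁(x) < 0`: `M₂ - λ M₁ = F + ε M₁ < 0`; for `M₁(x) ≥ 0`, `‖x‖ = 1`: `M₂ - λ M₁ = F + ε M₁ ≤ -δ₁ + ε M₁ < 0`.
-/

namespace Pool.Agent.Work.MP_659252_gt.SP

open scoped ContDiff Topology
open Pool.Agent.Work.MP_659252_gt.Z (V Ten val Tan InT)
open Pool.Agent.Work.MP_659252_gt.QR

variable {d : ℕ}

private theorem sl_cont (M : Mat d) : Continuous fun x : V d => bil M x x := by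
  unfold bil
  fun_prop

private theorem sl_smul (M : Mat d) (c : ℝ) (x : V d) :
    bil M (c • x) (c • x) = c ^ 2 * bil M x x := by
  rw [bil_smul_left, bil_smul_right]
  ring

private theorem sl_sub (M₁ M₂ : Mat d) (μ : ℝ) (x y : V d) :
    bil (fun i j => M₂ i j + (-μ * M₁ i j)) x y = bil M₂ x y - μ * bil M₁ x y := by
  have h1 := bil_add_mat M₂ (fun i j => -μ * M₁ i j) x y
  have h2 := bil_smul_mat (-μ) M₁ x y
  rw [h1, h2]
  ring

private theorem sl_line (M : Mat d) (hM : ∀ i j, M i j = M j i) (x y : V d) (t : ℝ) :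
    bil M (x + t • y) (x + t • y) = bil M x x + 2 * t * bil M x y + t ^ 2 * bil M y y := by
  rw [bil_add_left, bil_add_right, bil_add_right, bil_smul_left, bil_smul_left, bil_smul_right,
    bil_smul_right, bil_comm hM y x]
  ring

/-- the touching argument -/
private theorem sl_touch (M₁ M₂ : Mat d) (h₁ : ∀ i j, M₁ i j = M₁ j i)
    (h₂ : ∀ i j, M₂ i j = M₂ j i)
    (h : ∀ x : V d, x ≠ 0 → bil M₁ x x ≤ 0 → bil M₂ x x < 0) {μ : ℝ} {y : V d}
    (hy : bil M₁ y y < 0) (hF : bil M₂ y y = μ * bil M₁ y y) {x : V d} (hx : 0 < bil M₁ x x)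
    (hxy : 0 ≤ bil M₂ x y - μ * bil M₁ x y) : bil M₂ x x < μ * bil M₁ x x := by
  by_contra hc
  push Not at hc
  set M : Mat d := fun i j => M₂ i j + (-μ * M₁ i j) with hM
  have hMs : ∀ i j, M i j = M j i := by
    intro i j
    rw [hM]
    simp only
    rw [h₁ i j, h₂ i j]
  -- the zero of `M₁` on the line
  set g : ℝ → ℝ := fun t => bil M₁ (x + t • y) (x + t • y) with hg
  have hgc : Continuous g := by
    have : Continuous fun t : ℝ => x + t • y := by fun_prop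
    exact (sl_cont M₁).comp this
  have hge : ∀ t, g t = bil M₁ x x + 2 * t * bil M₁ x y + t ^ 2 * bil M₁ y y := fun t =>
    sl_line M₁ h₁ x y t
  -- a large parameter
  obtain ⟨T, hT0, hT⟩ : ∃ T : ℝ, 0 < T ∧ g T < 0 := by
    set A := bil M₁ x x
    set B := bil M₁ x y
    set C := -bil M₁ y y with hC
    have hC0 : 0 < C := by rw [hC]; linarith
    refine ⟨(A + 2 * |B|) / C + 1, by positivity, ?_⟩
    rw [hge]
    set T := (A + 2 * |B|) / C + 1 with hT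
    have hT1 : 1 ≤ T := by
      rw [hT]
      have : 0 ≤ (A + 2 * |B|) / C := by positivity
      linarith
    have hCT : C * T = A + 2 * |B| + C := by
      rw [hT]
      field_simp
    have e1 : bil M₁ y y = -C := by rw [hC]; ring
    rw [e1]
    have e2 : B ≤ |B| := le_abs_self B
    have e3 : A + 2 * T * B + T ^ 2 * -C = A + 2 * T * B - T * (C * T) := by ring
    rw [e3, hCT]
    have e4 : T * B ≤ T * |B| := mul_le_mul_of_nonneg_left e2 (by linarith)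
    have e5 : A ≤ T * A := by nlinarith
    nlinarith
  obtain ⟨t, ht, hgt⟩ : ∃ t ∈ Set.Icc (0 : ℝ) T, g t = 0 := by
    have h0 : 0 ≤ g 0 := by
      rw [hge]
      simp only [mul_zero, zero_mul, add_zero, ne_eq, OfNat.ofNat_ne_zero, not_false_eq_true,
        zero_pow]
      exact hx.le
    have := intermediate_value_Icc' hT0.le hgc.continuousOn
    obtain ⟨t, ht, h1⟩ := this ⟨hT.le, h0⟩
    exact ⟨t, ht, h1⟩
  have hne : x + t • y ≠ 0 := by
    intro h0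
    have h1 : x = (-t) • y := by
      rw [neg_smul]
      exact eq_neg_of_add_eq_zero_left h0
    have h2 : bil M₁ x x = (-t) ^ 2 * bil M₁ y y := by
      rw [h1, sl_smul]
    nlinarith [sq_nonneg t]
  have h3 := h _ hne hgt.le
  have h4 := sl_line M hMs x y t
  rw [sl_sub, sl_sub, sl_sub, sl_sub, hF] at h4
  have h5 : bil M₁ (x + t • y) (x + t • y) = 0 := hgt
  rw [h5] at h4
  have h6 : 0 ≤ t * (bil M₂ x y - μ * bil M₁ x y) := mul_nonneg ht.1 hxy
  nlinarith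

theorem slem (M₁ M₂ : Mat d) (h₁ : Lor M₁) (h₂ : ∀ i j, M₂ i j = M₂ j i)
    (h : ∀ x : V d, x ≠ 0 → bil M₁ x x ≤ 0 → bil M₂ x x < 0) :
    ∃ lam : ℝ, 0 < lam ∧ ∀ x : V d, x ≠ 0 → bil M₂ x x < lam * bil M₁ x x := by
  have c1 := sl_cont M₁
  have c2 := sl_cont M₂
  set f₁ : V d → ℝ := fun x => bil M₁ x x with hf₁
  set f₂ : V d → ℝ := fun x => bil M₂ x x with hf₂
  have hK : IsCompact (Metric.sphere (0 : V d) 1) := isCompact_sphere _ _
  have hne : ∀ x ∈ Metric.sphere (0 : V d) 1, x ≠ 0 := by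
    intro x hx h0
    rw [h0] at hx
    simp at hx
  -- normalisation
  have hnorm : ∀ x : V d, x ≠ 0 → ∃ u ∈ Metric.sphere (0 : V d) 1, ∃ r : ℝ, 0 < r ∧ x = r • u := by
    intro x hx
    have hr : 0 < ‖x‖ := norm_pos_iff.2 hx
    refine ⟨‖x‖⁻¹ • x, ?_, ‖x‖, hr, ?_⟩
    · rw [mem_sphere_zero_iff_norm, norm_smul, norm_inv, norm_norm, inv_mul_cancel₀ hr.ne']
    · rw [smul_smul, mul_inv_cancel₀ hr.ne', one_smul]
  -- the point `y₀`
  obtain ⟨z, hz⟩ := h₁.neg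
  have hz0 : z ≠ 0 := by
    rintro rfl
    have : bil M₁ (0 : V d) 0 = 0 := by simp [bil]
    linarith
  obtain ⟨y₀, hy₀, r₀, hr₀, hzr⟩ := hnorm z hz0
  have hy₀1 : f₁ y₀ < 0 := by
    have : bil M₁ z z = r₀ ^ 2 * bil M₁ y₀ y₀ := by rw [hzr, sl_smul]
    rw [this] at hz
    by_contra hc
    push Not at hc
    have : 0 ≤ r₀ ^ 2 * bil M₁ y₀ y₀ := mul_nonneg (sq_nonneg _) hc
    linarith
  -- (1)
  have hKm : IsCompact (Metric.sphere (0 : V d) 1 ∩ {x | f₁ x ≤ 0}) :=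
    hK.inter_right (isClosed_le c1 continuous_const)
  obtain ⟨a, ha, hamax⟩ := hKm.exists_isMaxOn ⟨y₀, hy₀, hy₀1.le⟩ c2.continuousOn
  set δ := -f₂ a with hδ
  have hδ0 : 0 < δ := by
    have := h a (hne a ha.1) ha.2
    rw [hδ]
    simp only [hf₂]
    linarith
  have hδ1 : ∀ x ∈ Metric.sphere (0 : V d) 1, f₁ x ≤ 0 → f₂ x ≤ -δ := by
    intro x hx hx1
    have := hamax ⟨hx, hx1⟩
    rw [hδ, neg_neg]
    exact this
  -- (2)
  set φ₀ := f₂ y₀ / f₁ y₀ with hφ₀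
  have hφ₀0 : 0 < φ₀ := div_pos_of_neg_of_neg (by linarith [hδ1 y₀ hy₀ hy₀1.le]) hy₀1
  set η := min (δ / (φ₀ + 1)) (-f₁ y₀) with hη
  have hη0 : 0 < η := lt_min (by positivity) (by linarith)
  have hKe : IsCompact (Metric.sphere (0 : V d) 1 ∩ {x | f₁ x ≤ -η}) :=
    hK.inter_right (isClosed_le c1 continuous_const)
  have hy₀e : f₁ y₀ ≤ -η := by
    have := min_le_right (δ / (φ₀ + 1)) (-f₁ y₀)
    rw [← hη] at this
    linarith
  have hφc : ContinuousOn (fun x => f₂ x / f₁ x) (Metric.sphere (0 : V d) 1 ∩ {x | f₁ x ≤ -η}) := by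
    refine c2.continuousOn.div c1.continuousOn ?_
    rintro x ⟨-, hx⟩
    have : f₁ x ≤ -η := hx
    exact (by linarith : f₁ x < 0).ne
  obtain ⟨y, hy, hymin⟩ := hKe.exists_isMinOn ⟨y₀, hy₀, hy₀e⟩ hφc
  set μ := f₂ y / f₁ y with hμ
  have hy1 : f₁ y < 0 := by
    have : f₁ y ≤ -η := hy.2
    linarith
  have hμ0 : 0 < μ := div_pos_of_neg_of_neg (by linarith [hδ1 y hy.1 hy1.le]) hy1
  have hμφ : μ ≤ φ₀ := hymin ⟨hy₀, hy₀e⟩
  have hmin : ∀ x ∈ Metric.sphere (0 : V d) 1, f₁ x < 0 → f₂ x ≤ μ * f₁ x := by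
    intro x hx hx1
    by_cases hxe : f₁ x ≤ -η
    · have h1 : μ ≤ f₂ x / f₁ x := hymin ⟨hx, hxe⟩
      have h2 := mul_le_mul_of_nonpos_right h1 hx1.le
      rwa [div_mul_cancel₀ _ hx1.ne] at h2
    · push Not at hxe
      have h1 := hδ1 x hx hx1.le
      have h2 : η ≤ δ / (φ₀ + 1) := min_le_left _ _
      have h3 : η * (φ₀ + 1) ≤ δ := (le_div_iff₀ (by linarith)).1 h2
      have h4 : μ * (-f₁ x) ≤ (φ₀ + 1) * η := by
        have : -f₁ x ≤ η := by linarith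
        calc μ * (-f₁ x) ≤ (φ₀ + 1) * (-f₁ x) :=
              mul_le_mul_of_nonneg_right (by linarith) (by linarith)
          _ ≤ (φ₀ + 1) * η := mul_le_mul_of_nonneg_left this (by linarith)
      nlinarith
  have hyF : bil M₂ y y = μ * bil M₁ y y := by
    have : μ * f₁ y = f₂ y := div_mul_cancel₀ _ hy1.ne
    exact this.symm
  -- (3)
  have h3 : ∀ x : V d, 0 < bil M₁ x x → bil M₂ x x < μ * bil M₁ x x := by
    intro x hx
    rcases le_total 0 (bil M₂ x y - μ * bil M₁ x y) with hc | hc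
    · exact sl_touch M₁ M₂ h₁.symm h₂ h hy1 hyF hx hc
    · have e1 : bil M₁ (-x) (-x) = bil M₁ x x := by
        rw [bil_neg_left, bil_neg_right, neg_neg]
      have e2 : bil M₂ (-x) (-x) = bil M₂ x x := by
        rw [bil_neg_left, bil_neg_right, neg_neg]
      have := sl_touch M₁ M₂ h₁.symm h₂ h hy1 hyF (x := -x) (by rw [e1]; exact hx)
        (by rw [bil_neg_left, bil_neg_left]; linarith)
      rwa [e1, e2] at this
  have hFneg : ∀ x ∈ Metric.sphere (0 : V d) 1, 0 ≤ f₁ x → f₂ x - μ * f₁ x < 0 := by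
    intro x hx hx1
    rcases hx1.lt_or_eq with h4 | h4
    · have := h3 x h4
      simp only [hf₁, hf₂]
      linarith
    · have := h x (hne x hx) (le_of_eq h4.symm)
      rw [← h4]
      simp only [hf₂]
      linarith
  -- (4)
  have hKp : IsCompact (Metric.sphere (0 : V d) 1 ∩ {x | 0 ≤ f₁ x}) :=
    hK.inter_right (isClosed_le continuous_const c1)
  obtain ⟨δ₁, hδ₁, hδ₁'⟩ : ∃ δ₁ : ℝ, 0 < δ₁ ∧ ∀ x ∈ Metric.sphere (0 : V d) 1, 0 ≤ f₁ x →
      f₂ x - μ * f₁ x ≤ -δ₁ := by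
    rcases (Metric.sphere (0 : V d) 1 ∩ {x | 0 ≤ f₁ x}).eq_empty_or_nonempty with he | hn
    · refine ⟨1, one_pos, fun x hx hx1 => ?_⟩
      have : x ∈ Metric.sphere (0 : V d) 1 ∩ {x | 0 ≤ f₁ x} := ⟨hx, hx1⟩
      rw [he] at this
      exact this.elim
    · obtain ⟨b, hb, hbmax⟩ := hKp.exists_isMaxOn hn
        (f := fun x => f₂ x - μ * f₁ x) (by fun_prop)
      refine ⟨-(f₂ b - μ * f₁ b), by linarith [hFneg b hb.1 hb.2], fun x hx hx1 => ?_⟩
      rw [neg_neg]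
      exact hbmax ⟨hx, hx1⟩
  obtain ⟨B, hB⟩ := hK.exists_bound_of_continuousOn c1.continuousOn
  have hB' : ∀ x ∈ Metric.sphere (0 : V d) 1, f₁ x ≤ |B| := fun x hx =>
    (le_abs_self _).trans ((hB x hx).trans (le_abs_self _))
  set ε := min (μ / 2) (δ₁ / (2 * (|B| + 1))) with hε
  have hε0 : 0 < ε := lt_min (by positivity) (by positivity)
  have hε1 : ε ≤ μ / 2 := min_le_left _ _
  have hε2 : ε * (2 * (|B| + 1)) ≤ δ₁ := by
    have : ε ≤ δ₁ / (2 * (|B| + 1)) := min_le_right _ _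
    exact (le_div_iff₀ (by positivity)).1 this
  refine ⟨μ - ε, by linarith, ?_⟩
  have hsph : ∀ u ∈ Metric.sphere (0 : V d) 1, f₂ u < (μ - ε) * f₁ u := by
    intro u hu
    rcases lt_or_ge (f₁ u) 0 with h4 | h4
    · have := hmin u hu h4
      nlinarith
    · have h5 := hδ₁' u hu h4
      have h6 := hB' u hu
      have h7 : ε * f₁ u ≤ ε * |B| := mul_le_mul_of_nonneg_left h6 hε0.le
      nlinarith
  intro x hx
  obtain ⟨u, hu, r, hr, rfl⟩ := hnorm x hx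
  rw [sl_smul, sl_smul]
  have h8 := hsph u hu
  simp only [hf₁, hf₂] at h8
  have h9 : 0 < r ^ 2 := by positivity
  nlinarith

end Pool.Agent.Work.MP_659252_gt.SP
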